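import Pool.Agent.helper60.DB.SpecM

/-!
Row `bm:M2` (MP_fb2c2a_nt): composition with the isogeny of degree two.
-/

set_option autoImplicit false

namespace Pool.Agent.helper60.DB

open Polynomial

theorem M2_EE_mul {R : Type} [CommRing R] (f g : PowerSeries R) :
    EE (f * g) = EE f * g + f * EE g := by
  unfold EE
  rw [Derivation.leibniz, smul_eq_mul, smul_eq_mul]
  ring

theorem M2_EE_C {R : Type} [CommRing R] (a : R) : EE (PowerSeries.C a) = 0 := by
  unfold EE
  rw [PowerSeries.derivative_C, mul_zero]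

theorem M2_EE_one {R : Type} [CommRing R] : EE (1 : PowerSeries R) = 0 := by
  rw [← map_one (PowerSeries.C (R := R))]
  exact M2_EE_C 1

/-- **M2** -/
theorem M2 (hMD : MD_stmt) : M2_stmt := by
  intro R _ _ _ A' B' A'' B'' l α y g u hA hB hM
  have hmd := hMD R A' B' α y g u hM
  obtain ⟨hcg, hcu, hcur, hode⟩ := hM
  obtain ⟨v, huv⟩ : ∃ v : PowerSeries R, u * v = 1 :=
    ⟨PowerSeries.invOfUnit u 1, PowerSeries.mul_invOfUnit u 1 (by rw [hcu, Units.val_one])⟩
  have hcv : PowerSeries.constantCoeff v = 1 := by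
    have h := congrArg PowerSeries.constantCoeff huv
    rw [map_mul, hcu, one_mul, map_one] at h
    exact h
  have hev : EE u * v + u * EE v = 0 := by
    rw [← M2_EE_mul, huv, M2_EE_one]
  have h1 : (PowerSeries.C l) ^ 2 * PowerSeries.C A'' = -2 * PowerSeries.C A' := by
    have h := congrArg (PowerSeries.C (R := R)) hA
    simpa only [map_mul, map_pow, map_neg, map_ofNat] using h
  have h2 : (PowerSeries.C l) ^ 4 * PowerSeries.C B''
      = (PowerSeries.C A') ^ 2 - 4 * PowerSeries.C B' := by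
    have h := congrArg (PowerSeries.C (R := R)) hB
    simpa only [map_mul, map_pow, map_sub, map_ofNat] using h
  refine ⟨PowerSeries.C l * g * v,
    (1 - PowerSeries.C B' * (PowerSeries.X * g ^ 2) ^ 2) * v ^ 2, ⟨?_, ?_, ?_, ?_⟩, ?_, ?_⟩
  · rw [map_mul, map_mul, hcg, hcv, mul_one, PowerSeries.constantCoeff_C]
  · simp only [map_mul, map_sub, map_one, map_pow, hcv, PowerSeries.constantCoeff_X, zero_mul]
    ring
  · linear_combination (-(PowerSeries.X * g ^ 2) * v ^ 2) * h1
      + (-(PowerSeries.X * g ^ 2) ^ 2 * v ^ 4) * h2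
      + (-(v ^ 4) * (u ^ 2 + 1 - PowerSeries.C A' * (PowerSeries.X * g ^ 2)
          + PowerSeries.C B' * (PowerSeries.X * g ^ 2) ^ 2)) * hcur
      + ((u ^ 3 * v ^ 3 + u ^ 2 * v ^ 2 + u * v + 1)
          - 2 * PowerSeries.C A' * (PowerSeries.X * g ^ 2) * v ^ 2 * (u * v + 1)) * huv
  · rw [M2_EE_mul, M2_EE_mul, M2_EE_C, map_mul]
    linear_combination (PowerSeries.C l * v) * hode + (PowerSeries.C l * g * y * v) * hev
      - (PowerSeries.C l * g * y * EE v) * huv - (PowerSeries.C l * g * v ^ 2) * hmd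
      - (PowerSeries.C l * PowerSeries.C α * u * v) * huv
      + (PowerSeries.C l * PowerSeries.C α * v ^ 2) * hcur
  · linear_combination (PowerSeries.C l * g) * huv
  · linear_combination ((1 - PowerSeries.C B' * (PowerSeries.X * g ^ 2) ^ 2) * (u * v + 1)) * huv

end Pool.Agent.helper60.DB
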